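import Pool.Agent.Helper12.SF.Defs

/-! Part BT. -/

set_option autoImplicit false

namespace Pool.Agent.Helper32.SF.BT

open Pool.Agent.Helper12.SF

theorem fib (T : Finset ℕ) (hT : ∀ p ∈ T, p.Prime) (N : ℕ) (f : ∀ p ∈ T, ℕ) :
    ((Finset.range (N + 1)).filter fun m => ∀ (p : ℕ) (hp : p ∈ T), p ^ 2 ∣ m + f p hp).card ≤
      N / (∏ p ∈ T, p ^ 2) + 1 := by
  set M := ∏ p ∈ T, p ^ 2 with hM
  have hM0 : 0 < M := Finset.prod_pos fun p hp => pow_pos (hT p hp).pos 2
  have h1 : (((Finset.range (N + 1)).filter fun m => ∀ (p : ℕ) (hp : p ∈ T), p ^ 2 ∣ m + f p hp).image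
      fun m => m / M) ⊆ Finset.range (N / M + 1) := by
    intro x hx
    obtain ⟨m, hm, rfl⟩ := Finset.mem_image.1 hx
    rw [Finset.mem_filter, Finset.mem_range] at hm
    rw [Finset.mem_range]
    exact Nat.lt_succ_of_le (Nat.div_le_div_right (by omega))
  have h2 : Set.InjOn (fun m => m / M) (((Finset.range (N + 1)).filter
      fun m => ∀ (p : ℕ) (hp : p ∈ T), p ^ 2 ∣ m + f p hp : Finset ℕ) : Set ℕ) := by
    intro m hm m' hm' heq
    simp only [Finset.coe_filter, Set.mem_ofPred_eq] at hm hm'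
    simp only at heq
    have hd : ((M : ℕ) : ℤ) ∣ (m' : ℤ) - m := by
      rw [hM]
      push_cast
      apply Finset.prod_dvd_of_coprime
      · intro p hp q hq hpq
        have hc : Nat.Coprime p q := (Nat.coprime_primes (hT p hp) (hT q hq)).2 hpq
        exact (Nat.isCoprime_iff_coprime.2 hc).pow
      · intro p hp
        have e1 := hm.2 p hp
        have e2 := hm'.2 p hp
        have e3 : ((p : ℤ) ^ 2) ∣ ((m' : ℤ) + f p hp) - ((m : ℤ) + f p hp) := by
          apply dvd_sub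
          · exact_mod_cast e2
          · exact_mod_cast e1
        have e4 : ((m' : ℤ) + f p hp) - ((m : ℤ) + f p hp) = (m' : ℤ) - m := by ring
        rwa [e4] at e3
    have hmod : m ≡ m' [MOD M] := (Nat.modEq_iff_dvd).2 hd
    have e5 := Nat.div_add_mod m M
    have e6 := Nat.div_add_mod m' M
    have e7 : m % M = m' % M := hmod
    rw [← e5, ← e6, heq, e7]
  rw [← Finset.card_image_of_injOn h2]
  calc _ ≤ (Finset.range (N / M + 1)).card := Finset.card_le_card h1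
    _ = N / M + 1 := Finset.card_range _

theorem main : S_BT := by
  intro T hT N h
  set M := ∏ p ∈ T, p ^ 2 with hM
  have hsub : ((Finset.range (N + 1)).filter fun m => ∀ p ∈ T, ∃ i ∈ Finset.Icc 1 h, p ^ 2 ∣ m + i) ⊆
      (T.pi fun _ => Finset.Icc 1 h).biUnion fun f => (Finset.range (N + 1)).filter
        fun m => ∀ (p : ℕ) (hp : p ∈ T), p ^ 2 ∣ m + f p hp := by
    intro m hm
    rw [Finset.mem_filter] at hm
    obtain ⟨hm1, hm2⟩ := hm
    choose f hf1 hf2 using hm2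
    rw [Finset.mem_biUnion]
    exact ⟨f, Finset.mem_pi.2 hf1, Finset.mem_filter.2 ⟨hm1, hf2⟩⟩
  have hcard : ((Finset.range (N + 1)).filter
      fun m => ∀ p ∈ T, ∃ i ∈ Finset.Icc 1 h, p ^ 2 ∣ m + i).card ≤ h ^ T.card * (N / M + 1) := by
    calc _ ≤ ((T.pi fun _ => Finset.Icc 1 h).biUnion fun f => (Finset.range (N + 1)).filter
          fun m => ∀ (p : ℕ) (hp : p ∈ T), p ^ 2 ∣ m + f p hp).card := Finset.card_le_card hsub
      _ ≤ ∑ f ∈ T.pi fun _ => Finset.Icc 1 h, ((Finset.range (N + 1)).filter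
          fun m => ∀ (p : ℕ) (hp : p ∈ T), p ^ 2 ∣ m + f p hp).card := Finset.card_biUnion_le
      _ ≤ ∑ f ∈ T.pi fun _ => Finset.Icc 1 h, (N / M + 1) :=
          Finset.sum_le_sum fun f _ => fib T hT N f
      _ = h ^ T.card * (N / M + 1) := by
          rw [Finset.sum_const, Finset.card_pi, smul_eq_mul]
          simp
  have hMc : ((M : ℕ) : ℝ) = (∏ p ∈ T, (p : ℝ)) ^ 2 := by
    rw [hM]
    push_cast
    rw [Finset.prod_pow]
  calc (((Finset.range (N + 1)).filter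
      fun m => ∀ p ∈ T, ∃ i ∈ Finset.Icc 1 h, p ^ 2 ∣ m + i).card : ℝ)
      ≤ ((h ^ T.card * (N / M + 1) : ℕ) : ℝ) := by exact_mod_cast hcard
    _ = (h : ℝ) ^ T.card * (((N / M : ℕ) : ℝ) + 1) := by push_cast; ring
    _ ≤ (h : ℝ) ^ T.card * ((N : ℝ) / (∏ p ∈ T, (p : ℝ)) ^ 2 + 1) := by
        rw [← hMc]
        have : ((N / M : ℕ) : ℝ) ≤ (N : ℝ) / (M : ℝ) := Nat.cast_div_le
        gcongr

end Pool.Agent.Helper32.SF.BT
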