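import Pool.Agent.Helper12.SF.Defs

/-! Part SIEVE. -/

set_option autoImplicit false

namespace Pool.Agent.Helper32.SF.SIEVE

open Pool.Agent.Helper12.SF

theorem base (q : ℕ) (hq : 0 < q) (a h : ℕ) :
    |(((Finset.Icc 1 h).filter fun i => i ≡ a [MOD q]).card : ℝ) - h / q| ≤ 1 := by
  have h1 : Finset.Icc 1 h = Finset.Ioc 0 h := rfl
  have h2 := Nat.Ioc_filter_modEq_card (r := q) 0 h hq a
  rw [h1]
  have hq' : (0 : ℚ) < q := by exact_mod_cast hq
  have h3 : ((((Finset.Ioc 0 h).filter fun i => i ≡ a [MOD q]).card : ℕ) : ℚ) ≤ (h : ℚ) / q + 1 ∧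
      (h : ℚ) / q - 1 ≤ ((((Finset.Ioc 0 h).filter fun i => i ≡ a [MOD q]).card : ℕ) : ℚ) := by
    have e : ((((Finset.Ioc 0 h).filter fun i => i ≡ a [MOD q]).card : ℕ) : ℚ) =
        ((max (⌊((h : ℚ) - a) / q⌋ - ⌊(((0 : ℕ) : ℚ) - a) / q⌋) 0 : ℤ) : ℚ) := by
      rw [← h2]; simp
    rw [e]
    have f1 := Int.floor_le (((h : ℚ) - a) / q)
    have f2 := Int.lt_floor_add_one (((h : ℚ) - a) / q)
    have f3 := Int.floor_le ((((0 : ℕ) : ℚ) - a) / q)
    have f4 := Int.lt_floor_add_one ((((0 : ℕ) : ℚ) - a) / q)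
    have f5 : ((h : ℚ) - a) / q = (h : ℚ) / q + (((0 : ℕ) : ℚ) - a) / q := by
      rw [← add_div]; congr 1; push_cast; ring
    have f6 : (0 : ℚ) ≤ (h : ℚ) / q := by positivity
    push_cast
    push_cast at f1 f2 f3 f4 f5
    constructor
    · apply max_le
      · linarith
      · linarith
    · apply le_max_of_le_left
      linarith
  have h4 : ((((Finset.Ioc 0 h).filter fun i => i ≡ a [MOD q]).card : ℕ) : ℝ) ≤ (h : ℝ) / q + 1 := by
    have := (Rat.cast_le (K := ℝ)).2 h3.1
    push_cast at this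
    exact this
  have h5 : (h : ℝ) / q - 1 ≤ ((((Finset.Ioc 0 h).filter fun i => i ≡ a [MOD q]).card : ℕ) : ℝ) := by
    have := (Rat.cast_le (K := ℝ)).2 h3.2
    push_cast at this
    exact this
  rw [abs_le]
  constructor <;> linarith

theorem gen (m h : ℕ) (S : Finset ℕ) : (∀ p ∈ S, p.Prime) → ∀ q : ℕ, 0 < q →
    (∀ p ∈ S, Nat.Coprime q p) → ∀ a : ℕ,
    |(((Finset.Icc 1 h).filter fun i => i ≡ a [MOD q] ∧ ∀ p ∈ S, ¬ p ^ 2 ∣ m + i).card : ℝ) -
      h / q * dens S| ≤ 2 ^ S.card := by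
  classical
  induction S using Finset.induction_on with
  | empty =>
    intro _ q hq _ a
    have := base q hq a h
    simpa [dens] using this
  | insert p S hpS ih =>
    intro hS q hq hco a
    have hp : p.Prime := hS p (Finset.mem_insert_self _ _)
    have hS' : ∀ r ∈ S, r.Prime := fun r hr => hS r (Finset.mem_insert_of_mem hr)
    have hco' : ∀ r ∈ S, Nat.Coprime q r := fun r hr => hco r (Finset.mem_insert_of_mem hr)
    have hqp : Nat.Coprime q (p ^ 2) := (hco p (Finset.mem_insert_self _ _)).pow_right 2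
    have hp2 : 0 < p ^ 2 := pow_pos hp.pos 2
    set c : ℕ := (p ^ 2 - 1) * m with hc
    have hmc : m + c = p ^ 2 * m := by
      calc m + c = ((p ^ 2 - 1) + 1) * m := by rw [hc]; ring
        _ = p ^ 2 * m := by rw [Nat.sub_add_cancel hp2]
    obtain ⟨a', ha1, ha2⟩ := Nat.chineseRemainder hqp a c
    have hiff : ∀ i : ℕ, (i ≡ a [MOD q] ∧ p ^ 2 ∣ m + i) ↔ i ≡ a' [MOD (q * p ^ 2)] := by
      intro i
      rw [← Nat.modEq_and_modEq_iff_modEq_mul hqp]
      have hA : i ≡ a [MOD q] ↔ i ≡ a' [MOD q] :=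
        ⟨fun h => h.trans ha1.symm, fun h => h.trans ha1⟩
      have hB : p ^ 2 ∣ m + i ↔ i ≡ a' [MOD (p ^ 2)] := by
        have h1 : p ^ 2 ∣ m + i ↔ m + i ≡ m + c [MOD (p ^ 2)] := by
          rw [hmc]
          constructor
          · intro h
            exact ((Nat.modEq_zero_iff_dvd).2 h).trans
              ((Nat.modEq_zero_iff_dvd).2 (dvd_mul_right _ _)).symm
          · intro h
            exact (Nat.modEq_zero_iff_dvd).1 (h.trans
              ((Nat.modEq_zero_iff_dvd).2 (dvd_mul_right _ _)))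
        rw [h1]
        constructor
        · intro h
          exact (Nat.ModEq.add_left_cancel' m h).trans ha2.symm
        · intro h
          exact Nat.ModEq.add_left m (h.trans ha2)
      rw [hA, hB]
    have hsplit : (((Finset.Icc 1 h).filter
        fun i => i ≡ a [MOD q] ∧ ∀ r ∈ S, ¬ r ^ 2 ∣ m + i).card : ℝ) =
        (((Finset.Icc 1 h).filter
          fun i => i ≡ a [MOD q] ∧ ∀ r ∈ insert p S, ¬ r ^ 2 ∣ m + i).card : ℝ) +
        (((Finset.Icc 1 h).filter
          fun i => i ≡ a' [MOD (q * p ^ 2)] ∧ ∀ r ∈ S, ¬ r ^ 2 ∣ m + i).card : ℝ) := by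
      rw [← Nat.cast_add, ← Finset.card_union_of_disjoint]
      · congr 2
        ext i
        simp only [Finset.mem_filter, Finset.mem_union, Finset.mem_insert, forall_eq_or_imp]
        rw [← hiff]
        tauto
      · rw [Finset.disjoint_left]
        intro i hi hi'
        simp only [Finset.mem_filter, Finset.mem_insert, forall_eq_or_imp] at hi hi'
        rw [← hiff] at hi'
        exact hi.2.2.1 hi'.2.1.2
    have hcop2 : ∀ r ∈ S, Nat.Coprime (q * p ^ 2) r := by
      intro r hr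
      have hne : p ≠ r := fun e => hpS (e ▸ hr)
      exact Nat.Coprime.mul_left (hco' r hr)
        (((Nat.coprime_primes hp (hS' r hr)).2 hne).pow_left 2)
    have i1 := ih hS' q hq hco' a
    have i2 := ih hS' (q * p ^ 2) (Nat.mul_pos hq hp2) hcop2 a'
    have hd : dens (insert p S) = (1 - 1 / (p : ℝ) ^ 2) * dens S := by
      unfold dens
      rw [Finset.prod_insert hpS]
    have hq' : (q : ℝ) ≠ 0 := by exact_mod_cast hq.ne'
    have hp' : (p : ℝ) ≠ 0 := by exact_mod_cast hp.pos.ne'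
    have hmain : (h : ℝ) / q * dens (insert p S) =
        h / q * dens S - h / ((q * p ^ 2 : ℕ) : ℝ) * dens S := by
      rw [hd]
      push_cast
      field_simp
    rw [Finset.card_insert_of_notMem hpS, pow_succ, hmain]
    rw [abs_le] at i1 i2 ⊢
    constructor <;> linarith

theorem main : S_SIEVE := by
  intro S hS m h
  have := gen m h S hS 1 one_pos (fun p _ => Nat.coprime_one_left p) 0
  simpa [Nat.modEq_one] using this

end Pool.Agent.Helper32.SF.SIEVE
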